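import Pool.Agent.Helper28.TF.Claim

/-!
PROJECT TF, module E-11. Associative algebras generated by nilpotent elements whose Lie algebra is nilpotent.

`L'` is the Lie subalgebra of the `2 × 2` matrices over `A` generated by the `T i e₁₁` and `e₁₂`. The ideal `I` of matrices of `L'` with first entry `0` is abelian, `L'/I` is isomorphic to the Lie algebra generated by the `T i`;
all generators are ad-nilpotent. By `nilp_ext` the algebra `L'` is nilpotent, and `ad (T i₁ e₁₁) … ad (T i_m e₁₁) e₁₂ = T i₁ … T i_m e₁₂`.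
-/

set_option autoImplicit false

namespace Pool.Agent.Helper28.TF

attribute [local instance 100] LieRing.ofAssociativeRing

open Pool.Agent.Helper40.KZ

/-- The matrix with first row `(a, b)` and second row `0`. -/
def mm {A : Type*} [Ring A] (a b : A) : Matrix (Fin 2) (Fin 2) A := Matrix.of ![![a, b], ![0, 0]]

theorem mm_mul {A : Type*} [Ring A] (a b c d : A) : mm a b * mm c d = mm (a * c) (a * d) := by
  ext i j
  fin_cases i <;> fin_cases j <;> simp [mm, Matrix.mul_apply, Fin.sum_univ_two]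

theorem mm_pow {A : Type*} [Ring A] (a : A) (n : ℕ) : mm a 0 ^ (n + 1) = mm (a ^ (n + 1)) 0 := by
  induction n with
  | zero => simp
  | succ n ih => rw [pow_succ, ih, mm_mul, mul_zero, ← pow_succ]

/-- The generators. -/
def gx {A ι : Type*} [Ring A] (T : ι → A) : Option ι → Matrix (Fin 2) (Fin 2) A
  | some i => mm (T i) 0
  | none => mm 0 1

theorem span_sub_top {K L κ : Type*} [Field K] [LieRing L] [LieAlgebra K L] (X : κ → L)
    (Y : κ → LieSubalgebra.lieSpan K L (Set.range X)) (hY : ∀ i, (Y i : L) = X i) :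
    LieSubalgebra.lieSpan K (LieSubalgebra.lieSpan K L (Set.range X)) (Set.range Y) = ⊤ := by
  rw [eq_top_iff]
  rintro ⟨z, hz⟩ -
  induction hz using LieSubalgebra.lieSpan_induction with
  | mem x hx =>
    obtain ⟨i, rfl⟩ := hx
    have h1 : (⟨X i, LieSubalgebra.subset_lieSpan ⟨i, rfl⟩⟩ : LieSubalgebra.lieSpan K L (Set.range X)) = Y i :=
      Subtype.ext (hY i).symm
    rw [h1]
    exact LieSubalgebra.subset_lieSpan ⟨i, rfl⟩
  | zero => exact LieSubalgebra.zero_mem _
  | add x y hx hy h1 h2 => exact LieSubalgebra.add_mem _ h1 h2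
  | smul a x hx h1 => exact LieSubalgebra.smul_mem _ a h1
  | lie x y hx hy h1 h2 => exact LieSubalgebra.lie_mem _ h1 h2

theorem gx_mem {K A ι : Type*} [Field K] [Ring A] [Algebra K A] (T : ι → A) (z : Matrix (Fin 2) (Fin 2) A)
    (hz : z ∈ LieSubalgebra.lieSpan K (Matrix (Fin 2) (Fin 2) A) (Set.range (gx T))) :
    z 1 0 = 0 ∧ z 1 1 = 0 ∧ z 0 0 ∈ LieSubalgebra.lieSpan K A (Set.range T) := by
  induction hz using LieSubalgebra.lieSpan_induction with
  | mem x hx =>
    obtain ⟨o, rfl⟩ := hx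
    cases o with
    | none => exact ⟨rfl, rfl, LieSubalgebra.zero_mem _⟩
    | some i => exact ⟨rfl, rfl, LieSubalgebra.subset_lieSpan ⟨i, rfl⟩⟩
  | zero => exact ⟨rfl, rfl, LieSubalgebra.zero_mem _⟩
  | add x y hx hy h1 h2 =>
    refine ⟨?_, ?_, ?_⟩
    · rw [Matrix.add_apply, h1.1, h2.1, add_zero]
    · rw [Matrix.add_apply, h1.2.1, h2.2.1, add_zero]
    · rw [Matrix.add_apply]
      exact LieSubalgebra.add_mem _ h1.2.2 h2.2.2
  | smul a x hx h1 =>
    refine ⟨?_, ?_, ?_⟩
    · rw [Matrix.smul_apply, h1.1, smul_zero]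
    · rw [Matrix.smul_apply, h1.2.1, smul_zero]
    · rw [Matrix.smul_apply]
      exact LieSubalgebra.smul_mem _ a h1.2.2
  | lie x y hx hy h1 h2 =>
    have e : ⁅x, y⁆ = x * y - y * x := rfl
    refine ⟨?_, ?_, ?_⟩
    · rw [e, Matrix.sub_apply, Matrix.mul_apply, Matrix.mul_apply, Fin.sum_univ_two, Fin.sum_univ_two,
        h1.1, h1.2.1, h2.1, h2.2.1]
      simp
    · rw [e, Matrix.sub_apply, Matrix.mul_apply, Matrix.mul_apply, Fin.sum_univ_two, Fin.sum_univ_two,
        h1.1, h1.2.1, h2.1, h2.2.1]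
      simp
    · have e2 : (⁅x, y⁆ : Matrix (Fin 2) (Fin 2) A) 0 0 = ⁅x 0 0, y 0 0⁆ := by
        rw [e, Matrix.sub_apply, Matrix.mul_apply, Matrix.mul_apply, Fin.sum_univ_two, Fin.sum_univ_two,
          h1.1, h2.1, mul_zero, mul_zero, add_zero, add_zero]
        rfl
      rw [e2]
      exact LieSubalgebra.lie_mem _ h1.2.2 h2.2.2

theorem assoc_nilp {K A ι : Type*} [Field K] [CharZero K] [Ring A] [Algebra K A] [Finite ι] (T : ι → A) (n : ℕ)
    (hT : ∀ i, T i ^ n = 0) (k : ℕ)
    (hk : LieModule.lowerCentralSeries K (LieSubalgebra.lieSpan K A (Set.range T))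
      (LieSubalgebra.lieSpan K A (Set.range T)) k = ⊥) :
    ∃ m, ∀ l : List ι, l.length = m → (l.map T).prod = 0 := by
  classical
  have _ : Fintype ι := Fintype.ofFinite ι
  -- the generators inside the Lie algebra
  obtain ⟨Y, hY⟩ : ∃ Y : Option ι → LieSubalgebra.lieSpan K (Matrix (Fin 2) (Fin 2) A) (Set.range (gx T)),
      ∀ o, (Y o : Matrix (Fin 2) (Fin 2) A) = gx T o :=
    ⟨fun o => ⟨gx T o, LieSubalgebra.subset_lieSpan ⟨o, rfl⟩⟩, fun o => rfl⟩
  have hg := span_sub_top (K := K) (gx T) Y hY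
  -- nilpotent generators
  have hnil : ∀ o, IsNilpotent (LieAlgebra.ad K _ (Y o)) := by
    intro o
    refine LieAlgebra.isNilpotent_ad_of_isNilpotent ?_
    rw [hY]
    cases o with
    | none =>
      refine ⟨2, ?_⟩
      change mm (0 : A) 1 ^ 2 = 0
      rw [pow_two, mm_mul, zero_mul, zero_mul]
      ext i j
      fin_cases i <;> fin_cases j <;> rfl
    | some i =>
      refine ⟨n + 1, ?_⟩
      change mm (T i) 0 ^ (n + 1) = 0
      rw [mm_pow, pow_succ, hT, zero_mul]
      ext i j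
      fin_cases i <;> fin_cases j <;> rfl
  obtain ⟨N, hN⟩ : ∃ N, ∀ o, LieAlgebra.ad K _ (Y o) ^ N = 0 := by
    choose f hf using hnil
    refine ⟨∑ o, f o, fun o => ?_⟩
    exact pow_eq_zero_of_le (Finset.single_le_sum (fun _ _ => Nat.zero_le _) (Finset.mem_univ o)) (hf o)
  -- the projection to the first entry
  obtain ⟨φ, hφ⟩ : ∃ φ : LieSubalgebra.lieSpan K (Matrix (Fin 2) (Fin 2) A) (Set.range (gx T)) →ₗ⁅K⁆
      LieSubalgebra.lieSpan K A (Set.range T), ∀ z, (φ z : A) = (z : Matrix (Fin 2) (Fin 2) A) 0 0 := by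
    refine ⟨{ toFun := fun z => ⟨(z : Matrix (Fin 2) (Fin 2) A) 0 0, (gx_mem T z.1 z.2).2.2⟩
              map_add' := fun _ _ => rfl
              map_smul' := fun _ _ => rfl
              map_lie' := ?_ }, fun z => rfl⟩
    intro x y
    have h1 := gx_mem T x.1 x.2
    have h2 := gx_mem T y.1 y.2
    refine Subtype.ext ?_
    change (⁅(x : Matrix (Fin 2) (Fin 2) A), (y : Matrix (Fin 2) (Fin 2) A)⁆ : Matrix (Fin 2) (Fin 2) A) 0 0 =
      ⁅(x : Matrix (Fin 2) (Fin 2) A) 0 0, (y : Matrix (Fin 2) (Fin 2) A) 0 0⁆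
    have e : ⁅(x : Matrix (Fin 2) (Fin 2) A), (y : Matrix (Fin 2) (Fin 2) A)⁆ =
      (x : Matrix (Fin 2) (Fin 2) A) * y - y * x := rfl
    rw [e, Matrix.sub_apply, Matrix.mul_apply, Matrix.mul_apply, Fin.sum_univ_two, Fin.sum_univ_two,
      h1.1, h2.1, mul_zero, mul_zero, add_zero, add_zero]
    rfl
  have hker : LieModule.lowerCentralSeries K
      (LieSubalgebra.lieSpan K (Matrix (Fin 2) (Fin 2) A) (Set.range (gx T)))
      (LieSubalgebra.lieSpan K (Matrix (Fin 2) (Fin 2) A) (Set.range (gx T))) k ≤ φ.ker := by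
    have h1 := LieIdeal.map_lowerCentralSeries_le (R := K) k (f := φ)
    rw [hk] at h1
    rw [← LieIdeal.map_eq_bot_iff, eq_bot_iff]
    exact h1
  have hab : iterI (K := K) φ.ker 1 = ⊥ := by
    change ⁅φ.ker, φ.ker⁆ = ⊥
    rw [LieSubmodule.lie_eq_bot_iff]
    intro x hx y hy
    have hx0 : (x : Matrix (Fin 2) (Fin 2) A) 0 0 = 0 := by
      rw [← hφ, (LieHom.mem_ker).1 hx]
      rfl
    have hy0 : (y : Matrix (Fin 2) (Fin 2) A) 0 0 = 0 := by
      rw [← hφ, (LieHom.mem_ker).1 hy]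
      rfl
    have h1 := gx_mem T x.1 x.2
    have h2 := gx_mem T y.1 y.2
    refine Subtype.ext ?_
    change (x : Matrix (Fin 2) (Fin 2) A) * y - y * x = 0
    ext i j
    rw [Matrix.sub_apply, Matrix.mul_apply, Matrix.mul_apply, Fin.sum_univ_two, Fin.sum_univ_two]
    fin_cases i <;> fin_cases j <;> simp [h1.1, h1.2.1, h2.1, h2.2.1, hx0, hy0]
  obtain ⟨m, hm⟩ := nilp_ext Y hg N hN φ.ker k hker 1 hab
  refine ⟨m, fun l hl => ?_⟩
  have h1 := word_mem_lcs (K := K) Y (l.map some) (Y none)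
  rw [List.length_map, hl, hm] at h1
  have h2 : wo K Y (l.map some) (Y none) = 0 := by simpa using h1
  have h3 : ∀ l : List ι, ((wo K Y (l.map some) (Y none) : LieSubalgebra.lieSpan K (Matrix (Fin 2) (Fin 2) A)
      (Set.range (gx T))) : Matrix (Fin 2) (Fin 2) A) = mm 0 (l.map T).prod := by
    intro l
    induction l with
    | nil => exact hY none
    | cons i l ih =>
      have e : wo K Y ((i :: l).map some) (Y none) = ⁅Y (some i), wo K Y (l.map some) (Y none)⁆ := by
        simp only [wo, op, List.map_cons, List.prod_cons]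
        rfl
      rw [e]
      change ⁅(Y (some i) : Matrix (Fin 2) (Fin 2) A), ((wo K Y (l.map some) (Y none) :
        LieSubalgebra.lieSpan K (Matrix (Fin 2) (Fin 2) A) (Set.range (gx T))) : Matrix (Fin 2) (Fin 2) A)⁆ = _
      rw [ih, hY]
      change mm (T i) 0 * mm 0 (l.map T).prod - mm 0 (l.map T).prod * mm (T i) 0 = _
      rw [mm_mul, mm_mul, mul_zero, zero_mul, zero_mul, List.map_cons, List.prod_cons]
      ext a b
      fin_cases a <;> fin_cases b <;> simp [mm]
  have h4 := h3 l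
  rw [h2] at h4
  have h5 := congrFun (congrFun h4 0) 1
  exact h5.symm

end Pool.Agent.Helper28.TF
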