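import Mathlib

/-!
PROJECT TF, module E-4. Linear algebra: a basis of a complement inside a spanning set.

`exists_basis_mod`: `V = L ⧸ I`, `π = I.mkQ`. `π '' S` spans `V`, `V` is finite-dimensional (spanned by the finite set `π '' F`). `exists_linearIndependent K (π '' S)` gives `b ⊆ π '' S` linearly independent with the same span;
`b` is finite (`LinearIndependent.set_finite...`/`LinearIndependent.finite` in a finite-dimensional space). Choose preimages `u` in `S` (index by `Fin m`, `m = card b`). `x - s ∈ I`: `π x` is a combination of `π (u i)`.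
`s = ∑ c_i u_i ∈ I` gives `∑ c_i π (u i) = 0`, so all `c_i = 0`.
`finite_support_set`: each `f ∈ F` lies in the span of a finite subset of `O` (`Submodule.mem_span_finite_of_mem_span`); take the union.
-/

set_option autoImplicit false

namespace Pool.Agent.Helper28.TF

variable {K L : Type*} [Field K] [AddCommGroup L] [Module K L]

theorem exists_basis_mod (S : Set L) (hS : Submodule.span K S = ⊤) (I : Submodule K L)
    (hfd : ∃ F : Set L, F.Finite ∧ ∀ x, ∃ s ∈ Submodule.span K F, x - s ∈ I) :
    ∃ (m : ℕ) (u : Fin m → L), (∀ i, u i ∈ S) ∧ (∀ x, ∃ s ∈ Submodule.span K (Set.range u), x - s ∈ I) ∧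
      ∀ s ∈ Submodule.span K (Set.range u), s ∈ I → s = 0 := by
  classical
  obtain ⟨F, hF, hFs⟩ := hfd
  -- the quotient is finite-dimensional
  have hfin : Module.Finite K (L ⧸ I) := by
    refine ⟨⟨(hF.toFinset.image I.mkQ), ?_⟩⟩
    rw [eq_top_iff]
    rintro v -
    obtain ⟨x, rfl⟩ := I.mkQ_surjective v
    obtain ⟨s, hs, hxs⟩ := hFs x
    have h1 : I.mkQ x = I.mkQ s := by
      rw [← sub_eq_zero, ← map_sub]
      exact (Submodule.Quotient.mk_eq_zero I).2 hxs
    rw [h1]
    have h2 : I.mkQ s ∈ (Submodule.span K F).map I.mkQ := Submodule.mem_map_of_mem hs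
    rw [Submodule.map_span] at h2
    simpa using h2
  obtain ⟨b, hb, hspan, hli⟩ := exists_linearIndependent K (I.mkQ '' S)
  have hbf : Finite b := hli.finite
  have hspanb : Submodule.span K b = ⊤ := by
    rw [hspan, ← Submodule.map_span, hS, Submodule.map_top, Submodule.range_mkQ]
  obtain ⟨m, ⟨e⟩⟩ := Finite.exists_equiv_fin b
  have hch : ∀ i : Fin m, ∃ y ∈ S, I.mkQ y = (e.symm i : L ⧸ I) := fun i => hb (e.symm i).2
  choose u huS hu using hch
  have hcomp : (I.mkQ ∘ u) = fun i => ((e.symm i : b) : L ⧸ I) := by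
    funext i; exact hu i
  have hliu : LinearIndependent K (I.mkQ ∘ u) := by
    rw [hcomp]
    exact hli.comp _ e.symm.injective
  refine ⟨m, u, huS, ?_, ?_⟩
  · intro x
    have h1 : I.mkQ x ∈ Submodule.span K b := by rw [hspanb]; trivial
    have h2 : b ⊆ Set.range (I.mkQ ∘ u) := by
      intro v hv
      refine ⟨e ⟨v, hv⟩, ?_⟩
      rw [hcomp]
      simp
    have h3 : I.mkQ x ∈ Submodule.span K (Set.range (I.mkQ ∘ u)) := Submodule.span_mono h2 h1
    rw [Set.range_comp, ← Submodule.map_span, Submodule.mem_map] at h3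
    obtain ⟨s, hs, hsx⟩ := h3
    refine ⟨s, hs, ?_⟩
    have h4 : I.mkQ (x - s) = 0 := by rw [map_sub, hsx, sub_self]
    exact (Submodule.Quotient.mk_eq_zero I).1 h4
  · intro s hs hsI
    obtain ⟨c, rfl⟩ := (Submodule.mem_span_range_iff_exists_fun K).1 hs
    have h0 : ∑ i, c i • (I.mkQ ∘ u) i = 0 := by
      have h1 : I.mkQ (∑ i, c i • u i) = 0 := (Submodule.Quotient.mk_eq_zero I).2 hsI
      rw [map_sum] at h1
      simpa using h1
    have hc := Fintype.linearIndependent_iff.1 hliu c h0
    simp [hc]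

theorem finite_support_set (O F : Set L) (hF : F.Finite) (h : ∀ f ∈ F, f ∈ Submodule.span K O) :
    ∃ O' : Set L, O'.Finite ∧ O' ⊆ O ∧ ∀ f ∈ F, f ∈ Submodule.span K O' := by
  classical
  have hch : ∀ f : F, ∃ T : Finset L, (T : Set L) ⊆ O ∧ (f : L) ∈ Submodule.span K (T : Set L) :=
    fun f => Submodule.mem_span_finite_of_mem_span (h f f.2)
  choose T hTO hT using hch
  have : Finite F := hF
  refine ⟨⋃ f : F, (T f : Set L), Set.finite_iUnion fun f => (T f).finite_toSet, Set.iUnion_subset hTO, ?_⟩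
  intro f hf
  exact Submodule.span_mono (Set.subset_iUnion (fun f : F => (T f : Set L)) ⟨f, hf⟩) (hT ⟨f, hf⟩)

end Pool.Agent.Helper28.TF
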