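import Pool.Agent.Helper28.TF.Defs

/-!
PROJECT TF, module E-8. A central commutator with a nilpotent element is nilpotent (characteristic 0).

`comm_nil_ring`: `z = X W - W X`; `J` is closed under left and right multiplication by `X`, `W` (hence by `z`). Claim: `z ^ a * X ^ (N - a) ∈ J` for `a ≤ N`, by induction on `a`: with `b = N - a ≥ 1`,
 `(z ^ a X ^ b) W - W (z ^ a X ^ b) ∈ J`; modulo `J` it is `z ^ a (X ^ b W - W X ^ b) = b • z ^ (a + 1) X ^ (b - 1)` (`z` commutes with `W` and `X` modulo `J`: prove first `z ^ a W - W z ^ a ∈ J` and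
 `X ^ b W - W X ^ b - b • (z X ^ (b - 1)) ∈ J` by induction). Divide by `b` (`CharZero`, `J` a `K`-submodule).
`comm_nil`: `J = {T | ∀ v ∈ Z, T v ∈ Y}`, `X = ad x`, `W = ad w`; `ad ⁅x, w⁆ = ad x * ad w - ad w * ad x`; `J` is closed under left multiplication by `ad x`, `ad w` as `Y` is an ideal, under right multiplication as `Z` is an ideal.
-/

set_option autoImplicit false

namespace Pool.Agent.Helper28.TF

theorem comm_nil_ring {K A : Type*} [Field K] [CharZero K] [Ring A] [Algebra K A] (J : Submodule K A) (X W : A)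
    (hl : ∀ T ∈ J, X * T ∈ J ∧ W * T ∈ J) (hr : ∀ T ∈ J, T * X ∈ J ∧ T * W ∈ J)
    (h1 : X * (X * W - W * X) - (X * W - W * X) * X ∈ J) (h2 : W * (X * W - W * X) - (X * W - W * X) * W ∈ J)
    (N : ℕ) (hN : X ^ N ∈ J) : (X * W - W * X) ^ N ∈ J := by
  obtain ⟨z, hz⟩ : ∃ z : A, z = X * W - W * X := ⟨_, rfl⟩
  rw [← hz] at h1 h2 ⊢
  have hlz : ∀ T ∈ J, z * T ∈ J := by
    intro T hT
    have e : z * T = X * (W * T) - W * (X * T) := by
      rw [hz]
      noncomm_ring
    rw [e]
    exact J.sub_mem (hl _ (hl _ hT).2).1 (hl _ (hl _ hT).1).2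
  have hrz : ∀ T ∈ J, T * z ∈ J := by
    intro T hT
    have e : T * z = T * X * W - T * W * X := by
      rw [hz]
      noncomm_ring
    rw [e]
    exact J.sub_mem (hr _ (hr _ hT).1).2 (hr _ (hr _ hT).2).1
  have hlzp : ∀ (a : ℕ), ∀ T ∈ J, z ^ a * T ∈ J := by
    intro a
    induction a with
    | zero =>
      intro T hT
      rw [pow_zero, one_mul]
      exact hT
    | succ a ih =>
      intro T hT
      rw [pow_succ, mul_assoc]
      exact ih _ (hlz _ hT)
  have hrXp : ∀ (b : ℕ), ∀ T ∈ J, T * X ^ b ∈ J := by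
    intro b
    induction b with
    | zero =>
      intro T hT
      rw [pow_zero, mul_one]
      exact hT
    | succ b ih =>
      intro T hT
      rw [pow_succ, ← mul_assoc]
      exact (hr _ (ih _ hT)).1
  have L1 : ∀ a : ℕ, z ^ a * W - W * z ^ a ∈ J := by
    intro a
    induction a with
    | zero =>
      rw [pow_zero, one_mul, mul_one, sub_self]
      exact J.zero_mem
    | succ a ih =>
      have e : z ^ (a + 1) * W - W * z ^ (a + 1) =
          (z ^ a * W - W * z ^ a) * z - z ^ a * (W * z - z * W) := by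
        rw [pow_succ]
        noncomm_ring
      rw [e]
      exact J.sub_mem (hrz _ ih) (hlzp _ _ h2)
  have L2 : ∀ b : ℕ, X ^ (b + 1) * W - W * X ^ (b + 1) - ((b : K) + 1) • (z * X ^ b) ∈ J := by
    intro b
    induction b with
    | zero =>
      have e : X ^ (0 + 1) * W - W * X ^ (0 + 1) - (((0 : ℕ) : K) + 1) • (z * X ^ 0) = 0 := by
        rw [Nat.cast_zero, zero_add, zero_add, one_smul, pow_one, pow_zero, mul_one, hz, sub_self]
      rw [e]
      exact J.zero_mem
    | succ b ih =>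
      have hXW : X * W = W * X + z := by
        rw [hz]
        noncomm_ring
      have e0 : X ^ (b + 1 + 1) * W - W * X ^ (b + 1 + 1) =
          X * (X ^ (b + 1) * W - W * X ^ (b + 1)) + z * X ^ (b + 1) := by
        have e1 : X * (W * X ^ (b + 1)) = W * X ^ (b + 1 + 1) + z * X ^ (b + 1) := by
          rw [← mul_assoc, hXW, add_mul, mul_assoc, ← pow_succ']
        rw [mul_sub, e1, pow_succ' X (b + 1), mul_assoc]
        abel
      have e : X ^ (b + 1 + 1) * W - W * X ^ (b + 1 + 1) - (((b + 1 : ℕ) : K) + 1) • (z * X ^ (b + 1)) =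
          X * (X ^ (b + 1) * W - W * X ^ (b + 1) - ((b : K) + 1) • (z * X ^ b)) +
            ((b : K) + 1) • ((X * z - z * X) * X ^ b) := by
        have e2 : (X * z - z * X) * X ^ b = X * (z * X ^ b) - z * X ^ (b + 1) := by
          rw [sub_mul, mul_assoc, mul_assoc, ← pow_succ']
        rw [e0, e2, add_smul (((b + 1 : ℕ) : K)) 1, one_smul, Nat.cast_add, Nat.cast_one]
        simp only [mul_sub, mul_smul_comm, smul_sub]
        abel
      rw [e]
      exact J.add_mem (hl _ ih).1 (J.smul_mem _ (hrXp _ _ h1))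
  have main : ∀ a b : ℕ, a + b = N → z ^ a * X ^ b ∈ J := by
    intro a
    induction a with
    | zero =>
      intro b hb
      rw [pow_zero, one_mul]
      have : b = N := by omega
      rw [this]
      exact hN
    | succ a ih =>
      intro b hb
      have hT := ih (b + 1) (by omega)
      have hT1 : z ^ a * X ^ (b + 1) * W - W * (z ^ a * X ^ (b + 1)) ∈ J :=
        J.sub_mem (hr _ hT).2 (hl _ hT).2
      have e : ((b : K) + 1) • (z ^ (a + 1) * X ^ b) =
          (z ^ a * X ^ (b + 1) * W - W * (z ^ a * X ^ (b + 1))) -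
            z ^ a * (X ^ (b + 1) * W - W * X ^ (b + 1) - ((b : K) + 1) • (z * X ^ b)) -
            (z ^ a * W - W * z ^ a) * X ^ (b + 1) := by
        have e3 : z ^ (a + 1) * X ^ b = z ^ a * (z * X ^ b) := by
          rw [pow_succ, mul_assoc]
        rw [e3, mul_sub, mul_smul_comm, mul_sub, sub_mul]
        simp only [mul_assoc]
        abel
      have h3 : ((b : K) + 1) • (z ^ (a + 1) * X ^ b) ∈ J := by
        rw [e]
        exact J.sub_mem (J.sub_mem hT1 (hlzp _ _ (L2 b))) (hrXp _ _ (L1 a))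
      have hb0 : ((b : K) + 1) ≠ 0 := by
        exact_mod_cast Nat.succ_ne_zero b
      have h4 := J.smul_mem ((b : K) + 1)⁻¹ h3
      rw [smul_smul, inv_mul_cancel₀ hb0, one_smul] at h4
      exact h4
  have h := main N 0 (by omega)
  rwa [pow_zero, mul_one] at h

theorem comm_nil {K L : Type*} [Field K] [CharZero K] [LieRing L] [LieAlgebra K L] (Y Z : LieIdeal K L) (x w : L)
    (h1 : ∀ v ∈ Z, ⁅⁅x, ⁅x, w⁆⁆, v⁆ ∈ Y) (h2 : ∀ v ∈ Z, ⁅⁅w, ⁅x, w⁆⁆, v⁆ ∈ Y) (N : ℕ)
    (hN : ∀ v ∈ Z, (LieAlgebra.ad K L x ^ N) v ∈ Y) (v : L) (hv : v ∈ Z) :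
    (LieAlgebra.ad K L ⁅x, w⁆ ^ N) v ∈ Y := by
  let J : Submodule K (Module.End K L) :=
    { carrier := {T | ∀ v ∈ Z, T v ∈ Y}
      add_mem' := fun {S T} hS hT v hv => by
        rw [LinearMap.add_apply]
        exact add_mem (hS v hv) (hT v hv)
      zero_mem' := fun v _ => by
        rw [LinearMap.zero_apply]
        exact zero_mem Y
      smul_mem' := fun c T hT v hv => by
        rw [LinearMap.smul_apply]
        exact Y.smul_mem c (hT v hv) }
  have hJ : ∀ T : Module.End K L, T ∈ J ↔ ∀ v ∈ Z, T v ∈ Y := fun T => Iff.rfl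
  have had : ∀ y : L, ∀ T ∈ J, LieAlgebra.ad K L y * T ∈ J := by
    intro y T hT v hv
    rw [Module.End.mul_apply, LieAlgebra.ad_apply]
    exact lie_mem_right K L Y y _ (hT v hv)
  have had' : ∀ y : L, ∀ T ∈ J, T * LieAlgebra.ad K L y ∈ J := by
    intro y T hT v hv
    rw [Module.End.mul_apply, LieAlgebra.ad_apply]
    exact hT _ (lie_mem_right K L Z y _ hv)
  have hbr : ∀ y y' : L, LieAlgebra.ad K L ⁅y, y'⁆ =
      LieAlgebra.ad K L y * LieAlgebra.ad K L y' - LieAlgebra.ad K L y' * LieAlgebra.ad K L y := by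
    intro y y'
    refine LinearMap.ext fun u => ?_
    rw [LinearMap.sub_apply, Module.End.mul_apply, Module.End.mul_apply, LieAlgebra.ad_apply,
      LieAlgebra.ad_apply, LieAlgebra.ad_apply, LieAlgebra.ad_apply, LieAlgebra.ad_apply, lie_lie]
  have h := comm_nil_ring J (LieAlgebra.ad K L x) (LieAlgebra.ad K L w)
    (fun T hT => ⟨had x T hT, had w T hT⟩) (fun T hT => ⟨had' x T hT, had' w T hT⟩)
    (by
      rw [← hbr, ← hbr]
      intro v hv
      exact h1 v hv)
    (by
      rw [← hbr, ← hbr]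
      intro v hv
      exact h2 v hv) N (fun v hv => hN v hv)
  rw [← hbr] at h
  exact h v hv

end Pool.Agent.Helper28.TF
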