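import Pool.Agent.Helper40.KZ.Defs

/-!
PROJECT TF (MP_629dac_al), endgame, definitions.

Goal of the endgame (module `Endgame.lean`): a finitely generated Lie algebra whose generators are ad-nilpotent, with all proper
quotients nilpotent and with a nonzero sandwich, is nilpotent. `op` is the operator of a word (Helper40/KZ/Defs).
-/

set_option autoImplicit false

namespace Pool.Agent.Helper28.TF

open Pool.Agent.Helper40.KZ

variable (K : Type*) {L κ : Type*} [Field K] [LieRing L] [LieAlgebra K L]

/-- The operator `ad u_(w_1) … ad u_(w_n)` of the word `w`. -/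
abbrev wo (u : κ → L) (w : List κ) : Module.End K L := op (fun i => LieAlgebra.ad K L (u i)) w

/-- The Lie subalgebra generated by the elements `ad u_(w_1) … ad u_(w_n) r` with `n ≤ p` and `r ∈ R`. -/
def HS (u : κ → L) (R : Set L) (p : ℕ) : LieSubalgebra K L :=
  LieSubalgebra.lieSpan K L {x | ∃ (w : List κ) (r : L), w.length ≤ p ∧ r ∈ R ∧ x = wo K u w r}

variable {K}

/-- The iterated brackets `I, ⁅I, I⁆, ⁅I, ⁅I, I⁆⁆, …` as ideals of the ambient Lie algebra. -/
def iterI (I : LieIdeal K L) : ℕ → LieIdeal K L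
  | 0 => I
  | s + 1 => ⁅I, iterI I s⁆

/-- Some iterated bracket `⁅⊤, ⁅⊤, … Z⁆⁆` lies in `Y`. -/
def Pn (Y Z : LieIdeal K L) : Prop := ∃ n, LieSubmodule.lcs n Z ≤ Y

end Pool.Agent.Helper28.TF
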