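import Pool.Agent.Helper40.KZ.Gen
import Pool.Agent.Helper28.TF.Defs

/-!
PROJECT TF, module E-5. Words and the lower central series.

`span_words`: let `S` be the span of all `wo X w (X i)`. `{z | ∀ x ∈ S, ⁅z, x⁆ ∈ S}` is a Lie subalgebra containing all `X i` (`⁅X j, wo X w (X i)⁆ = wo X (j :: w) (X i)`), so it is everything (`hg`); so `S` is a Lie subalgebra containing all `X i = wo X [] (X i)`.
`word_mem_lcs`: induction on `w` (`LieModule.lowerCentralSeries_succ`, `LieSubmodule.lie_mem_lie`).
`lcs_gen`: by `Pool.Agent.Helper40.KZ.lcs_le` (module Gen), `x ∈ lcs k` is in the span of the `wo X w y`, `w.length = k`, `y : L`; by `span_words` `y` is a combination of `wo X w' (X i)`; if `w' = []` the term is `wo X w (X i)`,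
 otherwise `wo X (w ++ w') (X i) ∈ lcs (k + 1)` (`word_mem_lcs`, `LieModule.antitone_lowerCentralSeries`).
`fin_mod_lcs`: from `span_words`: `F = {wo X w (X i) | w.length < k}` is finite; words with `w.length ≥ k` give elements of `lcs k`.
-/

set_option autoImplicit false

namespace Pool.Agent.Helper28.TF

open Pool.Agent.Helper40.KZ

variable {K L ι : Type*} [Field K] [LieRing L] [LieAlgebra K L]

private theorem wo_append (X : ι → L) (u v : List ι) (y : L) :
    wo K X (u ++ v) y = wo K X u (wo K X v y) := by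
  simp [wo, op]

private theorem wo_cons (X : ι → L) (j : ι) (v : List ι) (y : L) :
    wo K X (j :: v) y = ⁅X j, wo K X v y⁆ := by
  simp [wo, op]

private theorem wo_nil (X : ι → L) (y : L) : wo K X [] y = y := by
  simp [wo, op]

theorem span_words (X : ι → L) (hg : LieSubalgebra.lieSpan K L (Set.range X) = ⊤) :
    Submodule.span K {x : L | ∃ (w : List ι) (i : ι), x = wo K X w (X i)} = ⊤ := by
  obtain ⟨S, hS⟩ : ∃ S, S = Submodule.span K {x : L | ∃ (w : List ι) (i : ι), x = wo K X w (X i)} :=
    ⟨_, rfl⟩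
  rw [← hS]
  let T : LieSubalgebra K L :=
    { carrier := {z | ∀ x ∈ S, ⁅z, x⁆ ∈ S}
      add_mem' := fun {a b} ha hb x hx => by rw [add_lie]; exact add_mem (ha x hx) (hb x hx)
      zero_mem' := fun x _ => by rw [zero_lie]; exact zero_mem _
      smul_mem' := fun c a ha x hx => by rw [smul_lie]; exact Submodule.smul_mem _ _ (ha x hx)
      lie_mem' := fun {a b} ha hb x hx => by
        rw [lie_lie]
        exact sub_mem (ha _ (hb x hx)) (hb _ (ha x hx)) }
  have hT : ∀ z, z ∈ T ↔ ∀ x ∈ S, ⁅z, x⁆ ∈ S := fun z => Iff.rfl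
  have h1 : LieSubalgebra.lieSpan K L (Set.range X) ≤ T := by
    rw [LieSubalgebra.lieSpan_le]
    rintro _ ⟨j, rfl⟩
    refine (hT (X j)).2 fun x hx => ?_
    rw [hS] at hx ⊢
    induction hx using Submodule.span_induction with
    | mem x hx =>
      obtain ⟨w, i, rfl⟩ := hx
      exact Submodule.subset_span ⟨j :: w, i, (wo_cons X j w (X i)).symm⟩
    | zero => rw [lie_zero]; exact zero_mem _
    | add x y _ _ h1 h2 => rw [lie_add]; exact add_mem h1 h2
    | smul c x _ h1 => rw [lie_smul]; exact Submodule.smul_mem _ _ h1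
  have h2 : ∀ z x, x ∈ S → ⁅z, x⁆ ∈ S := fun z x hx =>
    (hT z).1 (h1 (by rw [hg]; exact LieSubalgebra.mem_top z)) x hx
  let U : LieSubalgebra K L :=
    { S with lie_mem' := fun {a b} _ hb => h2 a b hb }
  have hU : ∀ z, z ∈ U ↔ z ∈ S := fun z => Iff.rfl
  have h3 : LieSubalgebra.lieSpan K L (Set.range X) ≤ U := by
    rw [LieSubalgebra.lieSpan_le]
    rintro _ ⟨j, rfl⟩
    refine (hU (X j)).2 ?_
    rw [hS]
    exact Submodule.subset_span ⟨[], j, (wo_nil X (X j)).symm⟩
  rw [eq_top_iff]
  intro z _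
  exact (hU z).1 (h3 (by rw [hg]; exact LieSubalgebra.mem_top z))

theorem word_mem_lcs (X : ι → L) (w : List ι) (y : L) :
    wo K X w y ∈ LieModule.lowerCentralSeries K L L w.length := by
  induction w with
  | nil => simp
  | cons j w ih =>
    rw [wo_cons, List.length_cons, LieModule.lowerCentralSeries_succ]
    exact LieSubmodule.lie_mem_lie (LieSubmodule.mem_top (X j)) ih

theorem lcs_gen (X : ι → L) (hg : LieSubalgebra.lieSpan K L (Set.range X) = ⊤) (k : ℕ) (x : L)
    (hx : x ∈ LieModule.lowerCentralSeries K L L k) :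
    ∃ s ∈ Submodule.span K {x : L | ∃ (w : List ι) (i : ι), w.length = k ∧ x = wo K X w (X i)},
      x - s ∈ LieModule.lowerCentralSeries K L L (k + 1) := by
  obtain ⟨Q, hQ⟩ : ∃ Q, Q = Submodule.span K
      {x : L | ∃ (w : List ι) (i : ι), w.length = k ∧ x = wo K X w (X i)} ⊔
        (LieModule.lowerCentralSeries K L L (k + 1)).toSubmodule := ⟨_, rfl⟩
  have hxQ : x ∈ Q := by
    refine Submodule.span_le.2 ?_ (lcs_le X hg k x hx)
    rintro _ ⟨w, y, hw, rfl⟩
    have h1 : (⊤ : Submodule K L) ≤ Q.comap (wo K X w) := by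
      rw [← span_words X hg, Submodule.span_le]
      rintro _ ⟨w', i, rfl⟩
      change wo K X w (wo K X w' (X i)) ∈ Q
      rw [hQ]
      rcases List.eq_nil_or_concat w' with h | ⟨v, j, h⟩
      · subst h
        rw [wo_nil]
        exact Submodule.mem_sup_left (Submodule.subset_span ⟨w, i, hw, rfl⟩)
      · rw [← wo_append]
        refine Submodule.mem_sup_right ?_
        have h2 := word_mem_lcs (K := K) X (w ++ w') (X i)
        refine LieModule.antitone_lowerCentralSeries K L L ?_ h2
        subst h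
        simp only [List.length_append, List.length_concat]
        omega
    exact h1 (Submodule.mem_top (x := y))
  rw [hQ, Submodule.mem_sup] at hxQ
  obtain ⟨s, hs, t, ht, rfl⟩ := hxQ
  refine ⟨s, hs, ?_⟩
  rw [add_sub_cancel_left]
  exact ht

theorem fin_mod_lcs [Finite ι] (X : ι → L) (hg : LieSubalgebra.lieSpan K L (Set.range X) = ⊤) (k : ℕ) :
    ∃ F : Set L, F.Finite ∧ ∀ x : L, ∃ s ∈ Submodule.span K F, x - s ∈ LieModule.lowerCentralSeries K L L k := by
  obtain ⟨F, hF⟩ : ∃ F : Set L, F = Set.image2 (fun (w : List ι) (i : ι) => wo K X w (X i))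
      {w | w.length < k} Set.univ := ⟨_, rfl⟩
  refine ⟨F, ?_, fun x => ?_⟩
  · rw [hF]
    exact (List.finite_length_lt ι k).image2 _ Set.finite_univ
  have hx : x ∈ Submodule.span K F ⊔ (LieModule.lowerCentralSeries K L L k).toSubmodule := by
    have h1 : (⊤ : Submodule K L) ≤
        Submodule.span K F ⊔ (LieModule.lowerCentralSeries K L L k).toSubmodule := by
      rw [← span_words X hg, Submodule.span_le]
      rintro _ ⟨w, i, rfl⟩
      rcases lt_or_ge w.length k with h | h
      · refine Submodule.mem_sup_left (Submodule.subset_span ?_)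
        rw [hF]
        exact ⟨w, h, i, Set.mem_univ i, rfl⟩
      · exact Submodule.mem_sup_right
          (LieModule.antitone_lowerCentralSeries K L L h (word_mem_lcs X w (X i)))
    exact h1 Submodule.mem_top
  rw [Submodule.mem_sup] at hx
  obtain ⟨s, hs, t, ht, rfl⟩ := hx
  refine ⟨s, hs, ?_⟩
  rw [add_sub_cancel_left]
  exact ht

end Pool.Agent.Helper28.TF
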