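import Pool.Agent.Helper28.TF.Pairs
import Pool.Agent.Helper28.TF.CommNil
import Pool.Agent.Helper28.TF.FinDim

/-!
PROJECT TF, module E-9. A Lie algebra generated by ad-nilpotent elements acts nilpotently where it acts through a nilpotent quotient.

`pn_of_lcs`: induction on `k` (all pairs `Y ≤ Z`). `k = 0`: `lcs 0 = ⊤`, `pn_one_step`. `k + 1`: let `l` be a list containing all the (finitely many) elements `z = wo X w (X i)`, `w.length = k`. For `z ∈ l` and `x : L`:
 `⁅x, z⁆ ∈ lcs (k + 1)` (as `z ∈ lcs k`: `word_mem_lcs`), so `⁅⁅x, z⁆, v⁆ ∈ Y` for `v ∈ Z`. Nilpotency of `ad z` from `Z` to `Y`: if `w = []` then `z = X i`, `ad z ^ N = 0`. If `w = j :: w'` then `z = ⁅X j, wo X w' (X i)⁆`, use `comm_nil` with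
 `x = X j`, `w = wo X w' (X i)` (its hypotheses: `⁅x, z⁆, ⁅w, z⁆ ∈ lcs (k + 1)`). `pn_list`: for a pair `Y ≤ Y' ≤ Z' ≤ Z` with `⁅z, Z'⁆ ⊆ Y'` for all `z ∈ l`: by `lcs_gen` every `x ∈ lcs k` is a combination of elements of `l` plus an element of
 `lcs (k + 1)`, so `⁅x, v⁆ ∈ Y'` for `v ∈ Z'`: induction hypothesis.
`nilp_ext`: `L/I` nilpotent (`lcs k ≤ I`), `iterI I s = ⊥`: for each `j`: `⁅lcs k, iterI I j⁆ ≤ ⁅I, iterI I j⁆ = iterI I (j + 1)`, so `Pn (iterI I (j + 1)) (iterI I j)`; with `pn_trans`, `Pn ⊥ I`; `lcs (k + n) ⊤ ≤ lcs n I ≤ ⊥`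
 (`LieModule.lowerCentralSeries K L L k = LieSubmodule.lcs k ⊤` by definition, `Function.iterate_add_apply`).
-/

set_option autoImplicit false

namespace Pool.Agent.Helper28.TF

variable {K L ι : Type*} [Field K] [CharZero K] [LieRing L] [LieAlgebra K L] [Finite ι]

omit [CharZero K] [Finite ι] in
private theorem cl_lie_lcs {k : ℕ} {z : L} (hz : z ∈ LieModule.lowerCentralSeries K L L k) (x : L) :
    ⁅x, z⁆ ∈ LieModule.lowerCentralSeries K L L (k + 1) := by
  rw [LieModule.lowerCentralSeries_succ]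
  exact LieSubmodule.lie_mem_lie (LieSubmodule.mem_top x) hz

omit [CharZero K] in
private theorem cl_fin (X : ι → L) (k : ℕ) :
    {x : L | ∃ (w : List ι) (i : ι), w.length = k ∧ x = wo K X w (X i)}.Finite := by
  have h1 : {w : List ι | w.length = k}.Finite := List.finite_length_eq ι k
  have h2 : ({w : List ι | w.length = k} ×ˢ (Set.univ : Set ι)).Finite := h1.prod Set.finite_univ
  refine (h2.image (fun q : List ι × ι => wo K X q.1 (X q.2))).subset ?_
  rintro x ⟨w, i, hw, rfl⟩
  exact ⟨(w, i), ⟨hw, Set.mem_univ i⟩, rfl⟩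

theorem pn_of_lcs (X : ι → L) (hg : LieSubalgebra.lieSpan K L (Set.range X) = ⊤) (N : ℕ)
    (hX : ∀ i, LieAlgebra.ad K L (X i) ^ N = 0) (k : ℕ) (Y Z : LieIdeal K L) (hYZ : Y ≤ Z)
    (h : ∀ x ∈ LieModule.lowerCentralSeries K L L k, ∀ v ∈ Z, ⁅x, v⁆ ∈ Y) : Pn Y Z := by
  induction k generalizing Y Z with
  | zero =>
    apply pn_one_step
    intro x v hv
    exact h x (by rw [LieModule.lowerCentralSeries_zero]; exact LieSubmodule.mem_top x) v hv
  | succ k ih =>
    have hfin := cl_fin (K := K) X k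
    have hmem : ∀ z, z ∈ hfin.toFinset.toList ↔ ∃ (w : List ι) (i : ι), w.length = k ∧ z = wo K X w (X i) := by
      intro z
      rw [Finset.mem_toList, Set.Finite.mem_toFinset]
      exact Iff.rfl
    have hlcs : ∀ (w : List ι) (i : ι), w.length = k →
        wo K X w (X i) ∈ LieModule.lowerCentralSeries K L L k := by
      intro w i hw
      have h1 := word_mem_lcs (K := K) X w (X i)
      rw [hw] at h1
      exact h1
    refine pn_list hfin.toFinset.toList N Y Z hYZ ?_ ?_ ?_
    · intro z hz x v hv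
      obtain ⟨w, i, hw, rfl⟩ := (hmem z).1 hz
      exact h _ (cl_lie_lcs (hlcs w i hw) x) v hv
    · intro z hz v hv
      obtain ⟨w, i, hw, rfl⟩ := (hmem z).1 hz
      cases w with
      | nil =>
        have h1 : wo K X ([] : List ι) (X i) = X i := rfl
        rw [h1, hX i]
        exact Y.zero_mem
      | cons j w' =>
        have h1 : wo K X (j :: w') (X i) = ⁅X j, wo K X w' (X i)⁆ := rfl
        have h2 := hlcs (j :: w') i hw
        rw [h1] at h2
        rw [h1]
        refine comm_nil Y Z (X j) (wo K X w' (X i)) ?_ ?_ N ?_ v hv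
        · intro v hv
          exact h _ (cl_lie_lcs h2 (X j)) v hv
        · intro v hv
          exact h _ (cl_lie_lcs h2 _) v hv
        · intro v _
          rw [hX j]
          exact Y.zero_mem
    · intro Y' Z' hY hYZ' hZ hl
      apply ih Y' Z' hYZ'
      intro x hx v hv
      obtain ⟨s, hs, hxs⟩ := lcs_gen X hg k x hx
      have h1 : ⁅s, v⁆ ∈ Y' := by
        clear hxs
        induction hs using Submodule.span_induction with
        | mem y hy => exact hl y ((hmem y).2 hy) v hv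
        | zero => rw [zero_lie]; exact Y'.zero_mem
        | add a b _ _ ha hb => rw [add_lie]; exact Y'.add_mem ha hb
        | smul c a _ ha => rw [smul_lie]; exact Y'.smul_mem c ha
      have h2 : ⁅x - s, v⁆ ∈ Y' := hY (h _ hxs v (hZ hv))
      have h3 : ⁅x, v⁆ = ⁅x - s, v⁆ + ⁅s, v⁆ := by
        rw [← add_lie, sub_add_cancel]
      rw [h3]
      exact Y'.add_mem h2 h1

omit [CharZero K] in
private theorem cl_lcs_mono (n : ℕ) {A B : LieIdeal K L} (hAB : A ≤ B) :
    LieSubmodule.lcs n A ≤ LieSubmodule.lcs n B := by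
  induction n with
  | zero => simpa using hAB
  | succ n ih =>
    rw [LieSubmodule.lcs_succ, LieSubmodule.lcs_succ]
    exact LieSubmodule.mono_lie_right ⊤ ih

omit [CharZero K] in
private theorem cl_lcs_add (n k : ℕ) (A : LieIdeal K L) :
    LieSubmodule.lcs (n + k) A = LieSubmodule.lcs n (LieSubmodule.lcs k A) := by
  induction n with
  | zero => simp
  | succ n ih =>
    rw [Nat.succ_add, LieSubmodule.lcs_succ, LieSubmodule.lcs_succ, ih]

theorem nilp_ext (X : ι → L) (hg : LieSubalgebra.lieSpan K L (Set.range X) = ⊤) (N : ℕ)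
    (hX : ∀ i, LieAlgebra.ad K L (X i) ^ N = 0) (I : LieIdeal K L) (k : ℕ)
    (hk : LieModule.lowerCentralSeries K L L k ≤ I) (s : ℕ) (hs : iterI I s = ⊥) :
    ∃ m, LieModule.lowerCentralSeries K L L m = ⊥ := by
  have h1 : ∀ j, Pn (iterI I (j + 1)) (iterI I j) := by
    intro j
    apply pn_of_lcs X hg N hX k
    · exact LieSubmodule.lie_le_right _ _
    · intro x hx v hv
      exact LieSubmodule.lie_mem_lie (hk hx) hv
  have h2 : ∀ j, Pn (iterI I j) I := by
    intro j
    induction j with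
    | zero => exact pn_of_le le_rfl
    | succ j ih => exact pn_trans (h1 j) ih
  obtain ⟨n, hn⟩ := h2 s
  rw [hs] at hn
  refine ⟨n + k, ?_⟩
  rw [eq_bot_iff]
  have h3 : LieModule.lowerCentralSeries K L L (n + k) = LieSubmodule.lcs (n + k) (⊤ : LieIdeal K L) := rfl
  have h4 : LieModule.lowerCentralSeries K L L k = LieSubmodule.lcs k (⊤ : LieIdeal K L) := rfl
  rw [h3, cl_lcs_add]
  rw [h4] at hk
  exact (cl_lcs_mono n hk).trans hn

end Pool.Agent.Helper28.TF
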