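import Pool.Agent.Helper28.TF.Defs

/-!
PROJECT TF, module E-1. Collection of words.

`gen_mem`: `LieSubalgebra.subset_lieSpan`. `hs_mono`: `LieSubalgebra.lieSpan_mono`.
`ad_hs`: `LieSubalgebra.lieSpan_induction` on `x`: for a generator `wo w r` the bracket `⁅u i, wo w r⁆ = wo (i :: w) r`; brackets by `leibniz_lie` (`⁅u, ⁅x, y⁆⁆ = ⁅⁅u, x⁆, y⁆ + ⁅x, ⁅u, y⁆⁆`, `x, y ∈ HS p ⊆ HS (p + 1)`).
`perm_diff`: induction on `List.Perm` (all `p`): nil: `0`. cons: `wo (i :: w) r - wo (i :: w') r = ⁅u i, wo w r - wo w' r⁆`; if `p = 0` then `w = []` and the difference is `0`; otherwise IH for `p - 1` and `ad_hs`.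
 swap: `wo (i :: j :: l) r - wo (j :: i :: l) r = ⁅⁅u i, u j⁆, wo l r⁆` with `l.length + 2 ≤ p + 1`; `⁅u i, u j⁆ = s + ρ` with `s` in the span of the `u k` and `ρ ∈ R`: `⁅s, wo l r⁆` is a combination of the `wo (k :: l) r ∈ HS p`
 (`Submodule.span_induction`), `⁅ρ, wo l r⁆ ∈ HS p` as `ρ = wo [] ρ ∈ HS p`. trans: sum (`Perm.length_eq`).
-/

set_option autoImplicit false

namespace Pool.Agent.Helper28.TF

open Pool.Agent.Helper40.KZ

variable {K L κ : Type*} [Field K] [LieRing L] [LieAlgebra K L]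

private theorem wo_nil (u : κ → L) (r : L) : wo K u [] r = r := by
  simp [wo, op]

private theorem wo_cons (u : κ → L) (i : κ) (w : List κ) (r : L) :
    wo K u (i :: w) r = ⁅u i, wo K u w r⁆ := by
  simp [wo, op]

theorem gen_mem (u : κ → L) (R : Set L) (p : ℕ) (w : List κ) (hw : w.length ≤ p) (r : L) (hr : r ∈ R) :
    wo K u w r ∈ HS K u R p :=
  LieSubalgebra.subset_lieSpan ⟨w, r, hw, hr, rfl⟩

theorem hs_mono (u : κ → L) (R : Set L) {p q : ℕ} (h : p ≤ q) : HS K u R p ≤ HS K u R q := by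
  apply LieSubalgebra.lieSpan_mono
  rintro x ⟨w, r, hw, hr, rfl⟩
  exact ⟨w, r, hw.trans h, hr, rfl⟩

theorem ad_hs (u : κ → L) (R : Set L) (p : ℕ) (i : κ) (x : L) (hx : x ∈ HS K u R p) :
    ⁅u i, x⁆ ∈ HS K u R (p + 1) := by
  unfold HS at hx
  induction hx using LieSubalgebra.lieSpan_induction with
  | mem x h =>
    obtain ⟨w, r, hw, hr, rfl⟩ := h
    rw [← wo_cons]
    exact gen_mem u R (p + 1) (i :: w) (by simpa using hw) r hr
  | zero => simp
  | add x y hx hy h1 h2 =>
    rw [lie_add]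
    exact add_mem h1 h2
  | smul a x hx h1 =>
    rw [lie_smul]
    exact (HS K u R (p + 1)).smul_mem a h1
  | lie x y hx hy h1 h2 =>
    rw [leibniz_lie]
    exact add_mem ((HS K u R (p + 1)).lie_mem h1 (hs_mono u R (Nat.le_succ p) hy))
      ((HS K u R (p + 1)).lie_mem (hs_mono u R (Nat.le_succ p) hx) h2)

theorem perm_diff (u : κ → L) (R : Set L)
    (hrel : ∀ i j, ∃ s ∈ Submodule.span K (Set.range u), ⁅u i, u j⁆ - s ∈ R)
    {w w' : List κ} (h : w.Perm w') (p : ℕ) (hp : w.length ≤ p + 1) (r : L) (hr : r ∈ R) :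
    wo K u w r - wo K u w' r ∈ HS K u R p := by
  induction h generalizing p with
  | nil => simp
  | @cons i l l' hl ih =>
    rw [wo_cons, wo_cons, ← lie_sub]
    rcases Nat.eq_zero_or_pos p with h0 | h0
    · have hl0 : l.length = 0 := by
        simp only [List.length_cons] at hp
        omega
      have h1 : l = [] := List.length_eq_zero_iff.mp hl0
      subst h1
      have h2 : l' = [] := List.nil_perm.mp hl
      subst h2
      simp
    · obtain ⟨q, rfl⟩ : ∃ q, p = q + 1 := ⟨p - 1, by omega⟩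
      apply ad_hs
      apply ih
      simp only [List.length_cons] at hp
      omega
  | swap i j l =>
    simp only [List.length_cons] at hp
    rw [wo_cons, wo_cons, wo_cons, wo_cons]
    set z := wo K u l r with hz
    have h1 : ⁅u j, ⁅u i, z⁆⁆ - ⁅u i, ⁅u j, z⁆⁆ = ⁅⁅u j, u i⁆, z⁆ := by
      rw [lie_lie]
    rw [h1]
    obtain ⟨s, hs, hρ⟩ := hrel j i
    have h2 : ⁅u j, u i⁆ = s + (⁅u j, u i⁆ - s) := by abel
    rw [h2, add_lie]
    apply add_mem
    · have key : ∀ t ∈ Submodule.span K (Set.range u), ⁅t, z⁆ ∈ HS K u R p := by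
        intro t ht
        induction ht using Submodule.span_induction with
        | mem x hx =>
          obtain ⟨k, rfl⟩ := hx
          rw [hz, ← wo_cons]
          exact gen_mem u R p (k :: l) (by simp only [List.length_cons]; omega) r hr
        | zero => simp
        | add x y hx hy h1 h2 =>
          rw [add_lie]
          exact add_mem h1 h2
        | smul a x hx h1 =>
          rw [smul_lie]
          exact (HS K u R p).smul_mem a h1
      exact key s hs
    · apply (HS K u R p).lie_mem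
      · have := gen_mem (K := K) u R p [] (Nat.zero_le _) _ hρ
        rwa [wo_nil] at this
      · exact gen_mem u R p l (by omega) r hr
  | @trans l1 l2 l3 h12 h23 ih1 ih2 =>
    have h1 := ih1 p hp
    have h2 := ih2 p (by rw [← h12.length_eq]; exact hp)
    have : wo K u l1 r - wo K u l3 r = (wo K u l1 r - wo K u l2 r) + (wo K u l2 r - wo K u l3 r) := by
      abel
    rw [this]
    exact add_mem h1 h2

end Pool.Agent.Helper28.TF
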