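import Pool.Agent.Helper28.TF.Fin

/-!
PROJECT TF, module E-3. An ideal of finite codimension with an ad-nilpotent basis of a complement is finitely generated as a Lie algebra.

For all `i j` choose (`hspan`) `s_ij` in `span (range u)` with `⁅u i, u j⁆ - s_ij ∈ I`, for all `a : ι` choose `s_a` in the span with `X a - s_a ∈ I`. `R` = the finite set of all `⁅u i, u j⁆ - s_ij` and `X a - s_a`; `R ⊆ I`.
`H = HS K u R (card κ * N)`. (1) `⁅u i, x⁆ ∈ H` for `x ∈ H` (`ad_hs`, `hs_bound`). (2) `T = {x | ∃ s ∈ span (range u), x - s ∈ H}` is a Lie subalgebra: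
`⁅s + h, s' + h'⁆ = ⁅s, s'⁆ + ⁅s, h'⁆ - ⁅s', h⁆ + ⁅h, h'⁆`, `⁅s, s'⁆` is a combination of the `⁅u i, u j⁆ = s_ij + ρ_ij`, `ρ_ij ∈ R ⊆ H` (`Submodule.span_induction` twice). It contains all `X a`, so `T = ⊤` by `hg`.
(3) `x ∈ I`: `x = s + h`, `h ∈ H ⊆ I` (generators `wo w r ∈ I`), so `s ∈ I`, `s = 0` by `hind`. `F` from `hs_fg`; its elements `wo w r` lie in `I`.
-/

set_option autoImplicit false

namespace Pool.Agent.Helper28.TF

open Pool.Agent.Helper40.KZ

variable {K L κ ι : Type*} [Field K] [LieRing L] [LieAlgebra K L]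

theorem fg_ideal [Fintype κ] [Finite ι] (u : κ → L) (N : ℕ) (hu : ∀ i, LieAlgebra.ad K L (u i) ^ N = 0)
    (X : ι → L) (hg : LieSubalgebra.lieSpan K L (Set.range X) = ⊤) (I : LieIdeal K L)
    (hspan : ∀ x : L, ∃ s ∈ Submodule.span K (Set.range u), x - s ∈ I)
    (hind : ∀ s ∈ Submodule.span K (Set.range u), s ∈ I → s = 0) :
    ∃ F : Set L, F.Finite ∧ (∀ x ∈ F, x ∈ I) ∧ ∀ x ∈ I, x ∈ LieSubalgebra.lieSpan K L F := by
  classical
  set S : Submodule K L := Submodule.span K (Set.range u) with hS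
  choose c hcS hcI using fun q : κ × κ => hspan ⁅u q.1, u q.2⁆
  choose t htS htI using fun a : ι => hspan (X a)
  set R : Set L := Set.range (fun q : κ × κ => ⁅u q.1, u q.2⁆ - c q) ∪
    Set.range (fun a : ι => X a - t a) with hR
  have hRfin : R.Finite := (Set.finite_range _).union (Set.finite_range _)
  have hRI : ∀ r ∈ R, r ∈ I := by
    rintro r (⟨q, rfl⟩ | ⟨a, rfl⟩)
    · exact hcI q
    · exact htI a
  have hrel : ∀ i j, ∃ s ∈ Submodule.span K (Set.range u), ⁅u i, u j⁆ - s ∈ R :=
    fun i j => ⟨c (i, j), hcS (i, j), Or.inl ⟨(i, j), rfl⟩⟩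
  set P := Fintype.card κ * N with hP
  have hnil : ∀ r : L, wo K u [] r = r := fun r => by simp [wo, op]
  have hRH : ∀ r ∈ R, r ∈ HS K u R P := by
    intro r hr
    have h := gen_mem (K := K) u R P [] (Nat.zero_le _) r hr
    rwa [hnil] at h
  have had : ∀ s ∈ S, ∀ x ∈ HS K u R P, ⁅s, x⁆ ∈ HS K u R P := by
    intro s hs x hx
    induction hs using Submodule.span_induction with
    | mem y hy =>
      obtain ⟨i, rfl⟩ := hy
      exact hs_bound u R N hu hrel (P + 1) (ad_hs u R P i x hx)
    | zero =>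
      rw [zero_lie]
      exact zero_mem _
    | add y z _ _ h1 h2 =>
      rw [add_lie]
      exact add_mem h1 h2
    | smul a y _ h1 =>
      rw [smul_lie]
      exact (HS K u R P).smul_mem a h1
  let TM : Submodule K L := S ⊔ (HS K u R P).toSubmodule
  have hSTM : ∀ s ∈ S, s ∈ TM := fun s hs => Submodule.mem_sup_left hs
  have hHTM : ∀ x ∈ HS K u R P, x ∈ TM := fun x hx => Submodule.mem_sup_right hx
  have hss : ∀ s ∈ S, ∀ s' ∈ S, ⁅s, s'⁆ ∈ TM := by
    intro s hs s' hs'
    induction hs using Submodule.span_induction with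
    | mem y hy =>
      obtain ⟨i, rfl⟩ := hy
      induction hs' using Submodule.span_induction with
      | mem z hz =>
        obtain ⟨j, rfl⟩ := hz
        have h : ⁅u i, u j⁆ = c (i, j) + (⁅u i, u j⁆ - c (i, j)) := by abel
        rw [h]
        exact add_mem (hSTM _ (hcS (i, j))) (hHTM _ (hRH _ (Or.inl ⟨(i, j), rfl⟩)))
      | zero =>
        rw [lie_zero]
        exact zero_mem _
      | add y z _ _ h1 h2 =>
        rw [lie_add]
        exact add_mem h1 h2
      | smul a y _ h1 =>
        rw [lie_smul]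
        exact TM.smul_mem a h1
    | zero =>
      rw [zero_lie]
      exact zero_mem _
    | add y z _ _ h1 h2 =>
      rw [add_lie]
      exact add_mem h1 h2
    | smul a y _ h1 =>
      rw [smul_lie]
      exact TM.smul_mem a h1
  let T : LieSubalgebra K L :=
    { TM with
      lie_mem' := by
        intro x y hx hy
        obtain ⟨s, hs, h, hh, rfl⟩ := Submodule.mem_sup.1 hx
        obtain ⟨s', hs', h', hh', rfl⟩ := Submodule.mem_sup.1 hy
        rw [add_lie, lie_add, lie_add]
        have e1 : ⁅h, s'⁆ ∈ TM := by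
          rw [← lie_skew]
          exact TM.neg_mem (hHTM _ (had s' hs' h hh))
        exact add_mem (add_mem (hss s hs s' hs') (hHTM _ (had s hs h' hh')))
          (add_mem e1 (hHTM _ ((HS K u R P).lie_mem hh hh'))) }
  have hT : ∀ x : L, x ∈ TM := by
    intro x
    have h1 : LieSubalgebra.lieSpan K L (Set.range X) ≤ T := by
      rw [LieSubalgebra.lieSpan_le]
      rintro y ⟨a, rfl⟩
      have h2 : X a = t a + (X a - t a) := by abel
      have h3 : X a ∈ TM := by
        rw [h2]
        exact add_mem (hSTM _ (htS a)) (hHTM _ (hRH _ (Or.inr ⟨a, rfl⟩)))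
      exact h3
    have h4 : x ∈ LieSubalgebra.lieSpan K L (Set.range X) := by
      rw [hg]
      exact LieSubalgebra.mem_top x
    exact h1 h4
  have hwI : ∀ (w : List κ) (r : L), r ∈ I → wo K u w r ∈ I := by
    intro w
    induction w with
    | nil =>
      intro r hr
      rwa [hnil]
    | cons i w ih =>
      intro r hr
      have h : wo K u (i :: w) r = ⁅u i, wo K u w r⁆ := by simp [wo, op]
      rw [h]
      exact LieSubmodule.lie_mem _ (ih r hr)
  obtain ⟨F, hF, hFw, hFH⟩ := hs_fg (K := K) u R hRfin P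
  have hFI : ∀ x ∈ F, x ∈ I := by
    intro x hx
    obtain ⟨w, r, hr, rfl⟩ := hFw x hx
    exact hwI w r (hRI r hr)
  have hHI : ∀ x ∈ HS K u R P, x ∈ I := by
    intro x hx
    rw [hFH] at hx
    induction hx using LieSubalgebra.lieSpan_induction with
    | mem x h => exact hFI x h
    | zero => exact zero_mem _
    | add x y _ _ h1 h2 => exact add_mem h1 h2
    | smul a x _ h1 => exact I.smul_mem a h1
    | lie x y _ _ h1 h2 => exact LieSubmodule.lie_mem _ h2
  refine ⟨F, hF, hFI, fun x hx => ?_⟩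
  obtain ⟨s, hs, h, hh, hsum⟩ := Submodule.mem_sup.1 (hT x)
  have hsI : s ∈ I := by
    have e : s = x - h := by rw [← hsum]; abel
    rw [e]
    exact sub_mem hx (hHI h hh)
  have hs0 : s = 0 := hind s hs hsI
  rw [← hFH, ← hsum, hs0, zero_add]
  exact hh

end Pool.Agent.Helper28.TF
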