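import Pool.Agent.Helper40.KZ.Unavoid
import Pool.Agent.Helper40.KZ.Vanish
import Pool.Agent.Helper28.TF.Defs

/-!
PROJECT TF, module E-6. An ideal generated (as a Lie algebra) by finitely many sandwiches of `L` is nilpotent.

`ad_mem_words`: `LieSubalgebra.lieSpan_induction` (as `ad_mem_span` in Helper40/KZ/Gen.lean, but without the hypothesis that `a` generates): letters; sums, multiples; `ad ⁅x, y⁆ = ad x ad y - ad y ad x`.
`iter_zero`: `N` with `op (ad ∘ a) w = 0` for all words of length `N`, hence for all words of length `≥ N` (`take`/`drop`). By induction on `s`: every element of `iterI I s` is in the span of the `wo a w y`, `s ≤ w.length`, `y : L`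
 (`LieSubmodule.lieIdeal_oper_eq_linear_span'`, `ad_mem_words` for the elements of `I`; `wo a u (wo a w y) = wo a (u ++ w) y`). So `iterI I N = ⊥`.
`sand_ideal`: `F` finite: `F = Set.range a` for some `a : Fin d → L` (`Set.Finite.fin_param`); `unavoidable (α := Fin d)` and `op_zero` as in Helper40/KZ/Main.lean.
-/

set_option autoImplicit false

namespace Pool.Agent.Helper28.TF

open Pool.Agent.Helper40.KZ

variable {K L α : Type*} [Field K] [LieRing L] [LieAlgebra K L]

private theorem sn_op_append {A : Type*} [Monoid A] (a : α → A) (u v : List α) :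
    op a (u ++ v) = op a u * op a v := by
  simp [op]

private theorem sn_mul (f : α → Module.End K L) (x y : Module.End K L)
    (hx : x ∈ Submodule.span K {x | ∃ w : List α, w ≠ [] ∧ x = op f w})
    (hy : y ∈ Submodule.span K {x | ∃ w : List α, w ≠ [] ∧ x = op f w}) :
    x * y ∈ Submodule.span K {x | ∃ w : List α, w ≠ [] ∧ x = op f w} := by
  have h := Submodule.mul_mem_mul hx hy
  rw [Submodule.span_mul_span] at h
  refine Submodule.span_mono ?_ h
  rintro _ ⟨_, ⟨w, hw, rfl⟩, _, ⟨v, hv, rfl⟩, rfl⟩
  exact ⟨w ++ v, by simp [hw], (sn_op_append f w v).symm⟩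

private theorem sn_step (f : α → Module.End K L) (k : ℕ) (x : Module.End K L) (n : L)
    (hx : x ∈ Submodule.span K {x | ∃ w : List α, w ≠ [] ∧ x = op f w})
    (hn : n ∈ Submodule.span K {x | ∃ (w : List α) (y : L), w.length = k ∧ x = op f w y}) :
    x n ∈ Submodule.span K {x | ∃ (w : List α) (y : L), w.length = k + 1 ∧ x = op f w y} := by
  induction hx using Submodule.span_induction with
  | mem x hx =>
    obtain ⟨u, hu, rfl⟩ := hx
    induction hn using Submodule.span_induction with
    | mem n hn =>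
      obtain ⟨w, y, hw, rfl⟩ := hn
      refine Submodule.subset_span ⟨(u ++ w).take (k + 1), op f ((u ++ w).drop (k + 1)) y, ?_, ?_⟩
      · have h1 : 0 < u.length := List.length_pos_of_ne_nil hu
        rw [List.length_take, List.length_append]
        omega
      · have h1 : op f u (op f w y) = op f (u ++ w) y := by rw [sn_op_append]; rfl
        have h2 : op f (u ++ w) = op f ((u ++ w).take (k + 1)) * op f ((u ++ w).drop (k + 1)) := by
          rw [← sn_op_append, List.take_append_drop]
        rw [h1, h2]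
        rfl
    | zero => rw [map_zero]; exact zero_mem _
    | add n m _ _ h1 h2 => rw [map_add]; exact add_mem h1 h2
    | smul c n _ h1 => rw [map_smul]; exact Submodule.smul_mem _ _ h1
  | zero => exact zero_mem _
  | add x y _ _ hx hy => exact add_mem hx hy
  | smul c x _ hx => exact Submodule.smul_mem _ _ hx

theorem ad_mem_words (a : α → L) (z : L) (hz : z ∈ LieSubalgebra.lieSpan K L (Set.range a)) :
    LieAlgebra.ad K L z ∈ Submodule.span K {x | ∃ w : List α, w ≠ [] ∧ x = wo K a w} := by
  obtain ⟨f, hf⟩ : ∃ f : α → Module.End K L, f = fun i => LieAlgebra.ad K L (a i) := ⟨_, rfl⟩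
  have hwo : ∀ w : List α, wo K a w = op f w := by
    intro w
    rw [hf]
  simp only [hwo]
  obtain ⟨S, hS⟩ : ∃ S : LieSubalgebra K L, ∀ z, z ∈ S ↔ LieAlgebra.ad K L z ∈
      Submodule.span K {x | ∃ w : List α, w ≠ [] ∧ x = op f w} := by
    refine ⟨{ (Submodule.span K {x | ∃ w : List α, w ≠ [] ∧ x = op f w}).comap
      (LieAlgebra.ad K L : L →ₗ[K] Module.End K L) with
      lie_mem' := ?_ }, fun z => Iff.rfl⟩
    intro x y hx hy
    have hx' : LieAlgebra.ad K L x ∈
      Submodule.span K {x | ∃ w : List α, w ≠ [] ∧ x = op f w} := hx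
    have hy' : LieAlgebra.ad K L y ∈
      Submodule.span K {x | ∃ w : List α, w ≠ [] ∧ x = op f w} := hy
    change LieAlgebra.ad K L ⁅x, y⁆ ∈
      Submodule.span K {x | ∃ w : List α, w ≠ [] ∧ x = op f w}
    have h : LieAlgebra.ad K L ⁅x, y⁆ = LieAlgebra.ad K L x * LieAlgebra.ad K L y -
        LieAlgebra.ad K L y * LieAlgebra.ad K L x := by
      ext n
      simp
    rw [h]
    exact sub_mem (sn_mul f _ _ hx' hy') (sn_mul f _ _ hy' hx')
  have h1 : LieSubalgebra.lieSpan K L (Set.range a) ≤ S := by
    rw [LieSubalgebra.lieSpan_le]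
    rintro _ ⟨i, rfl⟩
    refine (hS (a i)).2 (Submodule.subset_span ⟨[i], by simp, ?_⟩)
    rw [hf]
    simp [op]
  exact (hS z).1 (h1 hz)

theorem iter_zero (a : α → L) (I : LieIdeal K L) (hI : ∀ x ∈ I, x ∈ LieSubalgebra.lieSpan K L (Set.range a))
    (N : ℕ) (hN : ∀ w : List α, w.length = N → wo K a w = 0) : iterI I N = ⊥ := by
  have key : ∀ (s : ℕ) (z : L), z ∈ iterI I s → z ∈ Submodule.span K
      {x | ∃ (w : List α) (y : L), w.length = s ∧
        x = op (fun i => LieAlgebra.ad K L (a i)) w y} := by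
    intro s
    induction s with
    | zero =>
      intro z _
      exact Submodule.subset_span ⟨[], z, rfl, by simp [op]⟩
    | succ s ih =>
      intro z hz
      have h1 : z ∈ (⁅I, iterI I s⁆ : LieSubmodule K L L).toSubmodule := hz
      rw [LieSubmodule.lieIdeal_oper_eq_linear_span'] at h1
      refine Submodule.span_le.2 ?_ h1
      rintro _ ⟨x, hx, n, hn, rfl⟩
      have h2 := sn_step (fun i => LieAlgebra.ad K L (a i)) s (LieAlgebra.ad K L x) n
        (ad_mem_words a x (hI x hx)) (ih n hn)
      exact h2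
  rw [eq_bot_iff]
  intro z hz
  have h1 := key N z hz
  have h2 : Submodule.span K {x | ∃ (w : List α) (y : L), w.length = N ∧
      x = op (fun i => LieAlgebra.ad K L (a i)) w y} ≤ ⊥ := by
    rw [Submodule.span_le]
    rintro _ ⟨w, y, hw, rfl⟩
    have h3 : op (fun i => LieAlgebra.ad K L (a i)) w = 0 := hN w hw
    rw [h3]
    exact zero_mem _
  have h3 := h2 h1
  rw [Submodule.mem_bot] at h3
  rw [h3]
  exact zero_mem _

theorem sand_ideal (h2 : (2 : K) ≠ 0) (F : Set L) (hF : F.Finite)
    (hs : ∀ c ∈ F, LieAlgebra.ad K L c * LieAlgebra.ad K L c = 0) (I : LieIdeal K L)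
    (hI : ∀ x ∈ I, x ∈ LieSubalgebra.lieSpan K L F) : ∃ s, iterI I s = ⊥ := by
  obtain ⟨d, a, _, hr⟩ := hF.fin_param
  obtain ⟨N, hN⟩ := unavoidable (α := Fin d)
  have ha : ∀ i, LieAlgebra.ad K L (a i) * LieAlgebra.ad K L (a i) = 0 := fun i => hs _ (by
    rw [← hr]
    exact Set.mem_range_self i)
  refine ⟨N, iter_zero a I (fun x hx => ?_) N fun w hw =>
    op_zero h2 a ha N (fun w' hw' => hN w' hw'.ge) w hw⟩
  rw [hr]
  exact hI x hx

end Pool.Agent.Helper28.TF
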