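import Pool.Agent.Helper40.TF.Orbit
import Pool.Agent.Helper28.TF.FgIdeal
import Pool.Agent.Helper28.TF.Basis
import Pool.Agent.Helper28.TF.FinDim
import Pool.Agent.Helper28.TF.SandNil
import Pool.Agent.Helper28.TF.Claim

/-!
PROJECT TF, module E-10 (assembly of the endgame).

`I` = the span of the orbit `{pr l w}` of `w`, a `LieIdeal` by `orbit_ideal`, nonzero (`w = pr [] w`). `hJ`: `lcs k ≤ I`. `S = {pr l (X i)}` spans `L` (`orbit_span`), each element is ad-nilpotent: `ad (pr l x) = pr l * ad x * pr (li l)`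
(`ad_pr`), so `(ad (pr l x)) ^ N = pr l * (ad x) ^ N * pr (li l) = 0` (`inv_pr`). `fin_mod_lcs` and `exists_basis_mod` give `u : Fin m → L` with values in `S`. `fg_ideal` gives a finite `F ⊆ I` with `I ⊆ lieSpan F`; `finite_support_set` with
`O = {pr l w}` gives a finite `O' ⊆ O` with `F ⊆ span O' ⊆ lieSpan O'`; the elements of `O` are sandwiches (`ad_pr`). `sand_ideal`, `nilp_ext`.
-/

set_option autoImplicit false

namespace Pool.Agent.Helper28.TF

open Pool.Agent.Helper40.TF LieAlgebra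

private lemma eg_conj_pow {A : Type*} [Ring A] (u u' a : A) (h1 : u * u' = 1) (h2 : u' * u = 1)
    (k : ℕ) : (u * a * u') ^ k = u * a ^ k * u' := by
  induction k with
  | zero => rw [pow_zero, pow_zero, mul_one, h1]
  | succ k ih =>
    rw [pow_succ, ih, pow_succ]
    calc u * a ^ k * u' * (u * a * u') = u * a ^ k * (u' * u) * a * u' := by noncomm_ring
      _ = u * (a ^ k * a) * u' := by rw [h2]; noncomm_ring

theorem endgame {K L ι : Type*} [Field K] [CharZero K] [LieRing L] [LieAlgebra K L] [Finite ι] (N : ℕ) (hN : 1 ≤ N)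
    (X : ι → L) (hX : ∀ i, ad K L (X i) ^ N = 0) (hg : LieSubalgebra.lieSpan K L (Set.range X) = ⊤)
    (w : L) (hw : w ≠ 0) (hw2 : ad K L w * ad K L w = 0)
    (hJ : ∀ J : LieIdeal K L, J ≠ ⊥ → ∃ k, LieModule.lowerCentralSeries K L L k ≤ J) :
    ∃ k, LieModule.lowerCentralSeries K L L k = ⊥ := by
  obtain ⟨O, hO⟩ : ∃ O : Set L,
    O = {y : L | ∃ l : List (ι × K), y = pr K N (fun i => ad K L (X i)) l w} := ⟨_, rfl⟩
  obtain ⟨I, hI0⟩ : ∃ I : LieIdeal K L, (I : Submodule K L) = Submodule.span K O := by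
    refine ⟨{ Submodule.span K O with
      lie_mem := fun {z x} hx => ?_ }, rfl⟩
    rw [hO] at hx ⊢
    exact orbit_ideal N hN X hX hg w z x hx
  have hmem : ∀ x, x ∈ I ↔ x ∈ Submodule.span K O := by
    intro x
    rw [← hI0]
    rfl
  have hwI : w ∈ I := by
    rw [hmem]
    apply Submodule.subset_span
    rw [hO]
    exact ⟨[], by simp [pr]⟩
  have hIne : I ≠ ⊥ := by
    intro h0
    rw [h0, LieSubmodule.mem_bot] at hwI
    exact hw hwI
  obtain ⟨k, hk⟩ := hJ I hIne
  have hS := orbit_span N hN X hX hg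
  obtain ⟨F0, hF0, hF0'⟩ := fin_mod_lcs X hg k
  obtain ⟨m, u, huS, hspan, hind⟩ := exists_basis_mod _ hS (I : Submodule K L)
    ⟨F0, hF0, fun x => by
      obtain ⟨s, hs, hxs⟩ := hF0' x
      exact ⟨s, hs, hk hxs⟩⟩
  have hu : ∀ i, ad K L (u i) ^ N = 0 := by
    intro i
    obtain ⟨l, j, hl⟩ := huS i
    rw [hl, ad_pr N hN X hX, eg_conj_pow _ _ _ (pr_inv N hN _ hX _) (inv_pr N hN _ hX _), hX j,
      mul_zero, zero_mul]
  obtain ⟨F, hF, hFI, hFgen⟩ := fg_ideal u N hu X hg I hspan hind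
  obtain ⟨O', hO', hO'O, hFO'⟩ := finite_support_set O F hF
    (fun f hf => (hmem f).1 (hFI f hf))
  have hsand : ∀ c ∈ O', ad K L c * ad K L c = 0 := by
    intro c hc
    have hc1 := hO'O hc
    rw [hO] at hc1
    obtain ⟨l, hl⟩ := hc1
    rw [hl, ad_pr N hN X hX, ← pow_two,
      eg_conj_pow _ _ _ (pr_inv N hN _ hX _) (inv_pr N hN _ hX _), pow_two, hw2, mul_zero, zero_mul]
  have hI : ∀ x ∈ I, x ∈ LieSubalgebra.lieSpan K L O' := by
    intro x hx
    have h2 : LieSubalgebra.lieSpan K L F ≤ LieSubalgebra.lieSpan K L O' := by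
      rw [LieSubalgebra.lieSpan_le]
      intro f hf
      have h3 : Submodule.span K O' ≤ (LieSubalgebra.lieSpan K L O').toSubmodule := by
        rw [Submodule.span_le]
        exact LieSubalgebra.subset_lieSpan
      exact h3 (hFO' f hf)
    exact h2 (hFgen x hx)
  obtain ⟨s, hs⟩ := sand_ideal (two_ne_zero) O' hO' hsand I hI
  exact nilp_ext X hg N hX I k hk s hs

end Pool.Agent.Helper28.TF
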