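import Pool.Agent.Helper28.TF.Coll

/-!
PROJECT TF, module E-2. Words in ad-nilpotent letters: only boundedly long words are needed.

`long_perm`: pigeonhole: some letter `i` occurs at least `N` times in `w` (otherwise `w.length = ∑ i, w.count i ≤ card κ * N`); then `w` is a permutation of `(rest) ++ replicate N i`
 (`List.perm_of_count_eq`-type argument, or `List.Sublist`/`Multiset`: `Multiset.le_count_iff_replicate_le`, `w = (w - replicate N i) + replicate N i` as multisets, `Multiset.coe_eq_coe`).
`hs_bound`: enough: every generator `wo w r`, `r ∈ R`, lies in `HS (card κ * N)`; strong induction on `w.length`. If `w.length ≤ card κ * N`: `gen_mem`. Otherwise `w ~ w'' ++ replicate N i`,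
 `wo (w'' ++ replicate N i) r = wo w'' ((ad (u i)) ^ N r) = 0`, so by `perm_diff` with `p = w.length - 1`, `wo w r ∈ HS (w.length - 1)`, and `HS (w.length - 1) ≤ HS (card κ * N)` by the induction hypothesis (`LieSubalgebra.lieSpan_le`).
`hs_fg`: the generating set of `HS p` is finite: `List.finite_length_le` / the image of a finite product.
-/

set_option autoImplicit false

namespace Pool.Agent.Helper28.TF

open Pool.Agent.Helper40.KZ

variable {K L κ : Type*} [Field K] [LieRing L] [LieAlgebra K L]

theorem long_perm [Fintype κ] (N : ℕ) (w : List κ) (hw : Fintype.card κ * N < w.length) :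
    ∃ (w'' : List κ) (i : κ), w.Perm (w'' ++ List.replicate N i) := by
  classical
  have h1 : ∃ i, N ≤ w.count i := by
    by_contra hc
    push Not at hc
    have h2 : ∑ i : κ, (w : Multiset κ).count i = w.length := by
      rw [Multiset.sum_count_eq_card (fun a _ => Finset.mem_univ a)]
      exact Multiset.coe_card w
    have h3 : ∑ i : κ, (w : Multiset κ).count i ≤ Fintype.card κ * N := by
      have h4 : ∀ i ∈ (Finset.univ : Finset κ), (w : Multiset κ).count i ≤ N := by
        intro i _
        rw [Multiset.coe_count]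
        exact (hc i).le
      have h5 := Finset.sum_le_card_nsmul Finset.univ _ N h4
      simpa using h5
    omega
  obtain ⟨i, hi⟩ := h1
  have h2 : Multiset.replicate N i ≤ (w : Multiset κ) := by
    rw [Multiset.le_count_iff_replicate_le.symm, Multiset.coe_count]
    exact hi
  refine ⟨((w : Multiset κ) - Multiset.replicate N i).toList, i, ?_⟩
  rw [← Multiset.coe_eq_coe, ← Multiset.coe_add, Multiset.coe_toList, Multiset.coe_replicate,
    Multiset.sub_add_cancel h2]

theorem hs_bound [Fintype κ] (u : κ → L) (R : Set L) (N : ℕ) (hu : ∀ i, LieAlgebra.ad K L (u i) ^ N = 0)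
    (hrel : ∀ i j, ∃ s ∈ Submodule.span K (Set.range u), ⁅u i, u j⁆ - s ∈ R) (p : ℕ) :
    HS K u R p ≤ HS K u R (Fintype.card κ * N) := by
  induction p with
  | zero => exact hs_mono u R (Nat.zero_le _)
  | succ q ih =>
    by_cases hq : q + 1 ≤ Fintype.card κ * N
    · exact hs_mono u R hq
    · unfold HS
      rw [LieSubalgebra.lieSpan_le]
      rintro x ⟨w, r, hw, hr, rfl⟩
      by_cases hw' : w.length ≤ q
      · exact ih (gen_mem u R q w hw' r hr)
      · obtain ⟨w'', i, hperm⟩ := long_perm N w (by omega)
        have h1 : wo K u (w'' ++ List.replicate N i) r = 0 := by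
          have h2 : wo K u (w'' ++ List.replicate N i) = wo K u w'' * LieAlgebra.ad K L (u i) ^ N := by
            simp only [wo, op, List.map_append, List.prod_append, List.map_replicate, List.prod_replicate]
          rw [h2, hu i, mul_zero]
          rfl
        have h3 := perm_diff u R hrel hperm q hw r hr
        rw [h1, sub_zero] at h3
        exact ih h3

theorem hs_fg [Finite κ] (u : κ → L) (R : Set L) (hR : R.Finite) (p : ℕ) :
    ∃ F : Set L, F.Finite ∧ (∀ x ∈ F, ∃ (w : List κ) (r : L), r ∈ R ∧ x = wo K u w r) ∧
      HS K u R p = LieSubalgebra.lieSpan K L F := by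
  refine ⟨{x | ∃ (w : List κ) (r : L), w.length ≤ p ∧ r ∈ R ∧ x = wo K u w r}, ?_, ?_, rfl⟩
  · have h1 : ({w : List κ | w.length ≤ p} ×ˢ R).Finite := (List.finite_length_le κ p).prod hR
    refine (h1.image (fun q : List κ × L => wo K u q.1 q.2)).subset ?_
    rintro x ⟨w, r, hw, hr, rfl⟩
    exact ⟨(w, r), ⟨hw, hr⟩, rfl⟩
  · rintro x ⟨w, r, _, hr, hx⟩
    exact ⟨w, r, hr, hx⟩

end Pool.Agent.Helper28.TF
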