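import Pool.Agent.Helper28.TF.Defs

/-!
PROJECT TF, module E-7. Pairs of ideals.

`pn_of_le`: `n = 0`. `pn_one_step`: `n = 1` (`LieSubmodule.lcs_succ`, `lcs_zero`). `pn_trans`: `lcs m (lcs n Z) = lcs (m + n) Z` (`Function.iterate_add_apply`), `lcs` is monotone (`LieSubmodule.mono_lie_right` / induction).
`pn_central`: induction on `n` (generalizing `Z`): `n = 0`: `Z ≤ Y`, `pn_of_le`. `n + 1`: let `Z'` be the ideal `{⁅z, v⁆ + y | v ∈ Z, y ∈ Y}` (a `LieIdeal`: `⁅x, ⁅z, v⁆⁆ = ⁅⁅x, z⁆, v⁆ + ⁅z, ⁅x, v⁆⁆` and `hc`).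
 `Y ≤ Z' ≤ Z`. `Pn Z' Z` by `H` (as `⁅z, v⁆ ∈ Z'` for `v ∈ Z`). `(ad z) ^ n` maps `Z'` into `Y` (`⁅z, y⁆ ∈ Y`; `(ad z) ^ n ⁅z, v⁆ = (ad z) ^ (n + 1) v`), so `Pn Y Z'` by the induction hypothesis. `pn_trans`.
`pn_list`: induction on `l`, using `pn_central` for the head `z` and the induction hypothesis for the tail applied to the pairs given by `pn_central` (for sub-pairs `Y ≤ Y' ≤ Z' ≤ Z` the hypotheses on the tail are inherited).
-/

set_option autoImplicit false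

namespace Pool.Agent.Helper28.TF

variable {K L : Type*} [Field K] [LieRing L] [LieAlgebra K L]

theorem pn_of_le {Y Z : LieIdeal K L} (h : Z ≤ Y) : Pn Y Z := ⟨0, h⟩

theorem pn_one_step {Y Z : LieIdeal K L} (h : ∀ (x : L), ∀ v ∈ Z, ⁅x, v⁆ ∈ Y) : Pn Y Z := by
  refine ⟨1, ?_⟩
  rw [LieSubmodule.lcs_succ, LieSubmodule.lcs_zero, LieSubmodule.lie_le_iff]
  intro x _ v hv
  exact h x v hv

private theorem lcs_mono' (n : ℕ) {N N' : LieIdeal K L} (h : N ≤ N') :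
    LieSubmodule.lcs n N ≤ LieSubmodule.lcs n N' := by
  induction n with
  | zero => exact h
  | succ n ih =>
    rw [LieSubmodule.lcs_succ, LieSubmodule.lcs_succ]
    exact LieSubmodule.mono_lie_right _ ih

private theorem lcs_add' (n m : ℕ) (N : LieIdeal K L) :
    LieSubmodule.lcs (n + m) N = LieSubmodule.lcs n (LieSubmodule.lcs m N) := by
  induction n with
  | zero => rw [zero_add, LieSubmodule.lcs_zero]
  | succ n ih => rw [Nat.succ_add, LieSubmodule.lcs_succ, LieSubmodule.lcs_succ, ih]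

theorem pn_trans {Y Z' Z : LieIdeal K L} (h1 : Pn Y Z') (h2 : Pn Z' Z) : Pn Y Z := by
  obtain ⟨n, hn⟩ := h1
  obtain ⟨m, hm⟩ := h2
  refine ⟨n + m, ?_⟩
  rw [lcs_add']
  exact (lcs_mono' n hm).trans hn

/-- the ideal of all `⁅z, v⁆ + y` -/
private def stepI (z : L) (Y Z : LieIdeal K L) (hc : ∀ (x : L), ∀ v ∈ Z, ⁅⁅x, z⁆, v⁆ ∈ Y) :
    LieIdeal K L where
  carrier := {x | ∃ v ∈ Z, ∃ y ∈ Y, x = ⁅z, v⁆ + y}
  add_mem' := by
    rintro _ _ ⟨v1, hv1, y1, hy1, rfl⟩ ⟨v2, hv2, y2, hy2, rfl⟩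
    refine ⟨v1 + v2, add_mem hv1 hv2, y1 + y2, add_mem hy1 hy2, ?_⟩
    rw [lie_add]
    abel
  zero_mem' := ⟨0, zero_mem _, 0, zero_mem _, by simp⟩
  smul_mem' := by
    rintro c _ ⟨v, hv, y, hy, rfl⟩
    refine ⟨c • v, Submodule.smul_mem _ _ hv, c • y, Submodule.smul_mem _ _ hy, ?_⟩
    rw [lie_smul, smul_add]
  lie_mem := by
    rintro x _ ⟨v, hv, y, hy, rfl⟩
    refine ⟨⁅x, v⁆, LieSubmodule.lie_mem _ hv, ⁅⁅x, z⁆, v⁆ + ⁅x, y⁆,
      add_mem (hc x v hv) (LieSubmodule.lie_mem _ hy), ?_⟩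
    rw [lie_add, leibniz_lie x z v]
    abel

private theorem mem_stepI {z : L} {Y Z : LieIdeal K L}
    {hc : ∀ (x : L), ∀ v ∈ Z, ⁅⁅x, z⁆, v⁆ ∈ Y} {x : L} :
    x ∈ stepI z Y Z hc ↔ ∃ v ∈ Z, ∃ y ∈ Y, x = ⁅z, v⁆ + y := Iff.rfl

private theorem ad_pow_mem (z : L) (Y : LieIdeal K L) (n : ℕ) {y : L} (hy : y ∈ Y) :
    (LieAlgebra.ad K L z ^ n) y ∈ Y := by
  induction n with
  | zero => simpa using hy
  | succ n ih =>
    rw [pow_succ', Module.End.mul_apply, LieAlgebra.ad_apply]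
    exact LieSubmodule.lie_mem _ ih

theorem pn_central (z : L) (n : ℕ) (Y Z : LieIdeal K L) (hYZ : Y ≤ Z)
    (hc : ∀ (x : L), ∀ v ∈ Z, ⁅⁅x, z⁆, v⁆ ∈ Y) (hn : ∀ v ∈ Z, (LieAlgebra.ad K L z ^ n) v ∈ Y)
    (H : ∀ Y' Z' : LieIdeal K L, Y ≤ Y' → Y' ≤ Z' → Z' ≤ Z → (∀ v ∈ Z', ⁅z, v⁆ ∈ Y') → Pn Y' Z') :
    Pn Y Z := by
  induction n generalizing Z with
  | zero =>
    refine pn_of_le fun v hv => ?_
    simpa using hn v hv
  | succ n ih =>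
    have hYS : Y ≤ stepI z Y Z hc := by
      intro y hy
      rw [mem_stepI]
      exact ⟨0, zero_mem _, y, hy, by simp⟩
    have hSZ : stepI z Y Z hc ≤ Z := by
      intro x hx
      rw [mem_stepI] at hx
      obtain ⟨v, hv, y, hy, rfl⟩ := hx
      exact add_mem (LieSubmodule.lie_mem _ hv) (hYZ hy)
    refine pn_trans (ih (stepI z Y Z hc) hYS (fun x v hv => hc x v (hSZ hv)) ?_
      (fun Y' Z' h1 h2 h3 h4 => H Y' Z' h1 h2 (h3.trans hSZ) h4))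
      (H (stepI z Y Z hc) Z hYS hSZ le_rfl ?_)
    · intro x hx
      rw [mem_stepI] at hx
      obtain ⟨v, hv, y, hy, rfl⟩ := hx
      rw [map_add]
      refine add_mem ?_ (ad_pow_mem z Y n hy)
      have h1 := hn v hv
      rw [pow_succ, Module.End.mul_apply, LieAlgebra.ad_apply] at h1
      exact h1
    · intro v hv
      rw [mem_stepI]
      exact ⟨v, hv, 0, zero_mem _, by simp⟩

theorem pn_list (l : List L) (n : ℕ) (Y Z : LieIdeal K L) (hYZ : Y ≤ Z)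
    (hc : ∀ z ∈ l, ∀ (x : L), ∀ v ∈ Z, ⁅⁅x, z⁆, v⁆ ∈ Y)
    (hn : ∀ z ∈ l, ∀ v ∈ Z, (LieAlgebra.ad K L z ^ n) v ∈ Y)
    (H : ∀ Y' Z' : LieIdeal K L, Y ≤ Y' → Y' ≤ Z' → Z' ≤ Z → (∀ z ∈ l, ∀ v ∈ Z', ⁅z, v⁆ ∈ Y') → Pn Y' Z') :
    Pn Y Z := by
  induction l generalizing Y Z with
  | nil => exact H Y Z le_rfl hYZ le_rfl (by simp)
  | cons z l ih =>
    refine pn_central z n Y Z hYZ (hc z List.mem_cons_self) (hn z List.mem_cons_self) ?_
    intro Y' Z' h1 h2 h3 hz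
    refine ih Y' Z' h2 (fun z' hz' x v hv => h1 (hc z' (List.mem_cons_of_mem _ hz') x v (h3 hv)))
      (fun z' hz' v hv => h1 (hn z' (List.mem_cons_of_mem _ hz') v (h3 hv))) ?_
    intro Y'' Z'' a b c hl
    refine H Y'' Z'' (h1.trans a) b (c.trans h3) ?_
    intro z' hz' v hv
    rcases List.mem_cons.1 hz' with h | h
    · rw [h]
      exact a (hz v (c hv))
    · exact hl z' h v hv

end Pool.Agent.Helper28.TF
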